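import Pool.Agent.H4.FC.RotPow
import Pool.Agent.H4.HY.ColPert

/-!
# Project LAB: Coxeter groups with arbitrary labels, coloured graphs: algebra

`eL v = eC v ⊗ γ (col v)` (the nilpotent matrices of the colour factors), `gF`, `cF` as for the folded
spheres, on `(C → Bool) × D`.
-/

set_option autoImplicit false
set_option linter.unusedSectionVars false

open Finset

namespace Pool.Agent.H85.Lab

open Pool.Agent.H4.Singer Pool.Agent.H4.FC Pool.Agent.H4.HY

open scoped Matrix Kronecker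

variable {V C D : Type} [DecidableEq V] [Fintype V] [DecidableEq C] [Fintype C] [Fintype D]
  [DecidableEq D]

/-- the indices of the fermions -/
abbrev LI (V C : Type) : Type := C ⊕ V ⊕ V ⊕ Unit

/-- the fermions of the labels -/
def fi : FI V 0 0 → LI V C
  | .inl (.inl c) => c.elim0
  | .inl (.inr c) => c.elim0
  | .inr (.inl v) => .inr (.inl v)
  | .inr (.inr _) => .inr (.inr (.inr ()))

/-- the fermions of the colours -/
def fj : C ⊕ V ⊕ V → LI V C
  | .inl c => .inl c
  | .inr (.inl v) => .inr (.inl v)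
  | .inr (.inr v) => .inr (.inr (.inl v))

theorem fi_inj : Function.Injective (fi : FI V 0 0 → LI V C) := by
  rintro ((c | c) | (v | x)) ((c' | c') | (v' | x')) h
  all_goals first
    | exact c.elim0
    | exact c'.elim0
    | rfl
    | (simp only [fi, Sum.inr.injEq, Sum.inl.injEq, reduceCtorEq] at h; subst h; rfl)
    | simp [fi] at h

theorem fj_inj : Function.Injective (fj : C ⊕ V ⊕ V → LI V C) := by
  rintro (c | (v | v)) (c' | (v' | v')) h
  all_goals simp_all [fj]

/-- the fermions on the larger module -/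
def up (w : LI V C → Matrix D D ℤ) (i : FI V 0 0) :
    Matrix ((C → Bool) × D) ((C → Bool) × D) ℤ :=
  (1 : Matrix (C → Bool) (C → Bool) ℤ) ⊗ₖ w (fi i)

private theorem lab_km {J : Type} [Fintype J] [DecidableEq J] (A B : Matrix J J ℤ)
    (A' B' : Matrix D D ℤ) : (A ⊗ₖ A') * (B ⊗ₖ B') = (A * B) ⊗ₖ (A' * B') :=
  (Matrix.mul_kronecker_mul A B A' B').symm

private theorem lab_kn {J : Type} (A : Matrix J J ℤ) (B : Matrix D D ℤ) :
    A ⊗ₖ (-B) = -(A ⊗ₖ B) := by
  ext p q
  simp [Matrix.kroneckerMap_apply]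

theorem isFermi_up {w a : LI V C → Matrix D D ℤ} (h : IsFermi w a) :
    IsFermi (up w) (up a) where
  w_sq i := by
    unfold up
    rw [lab_km, h.w_sq, mul_one]
    ext p q
    simp [Matrix.kroneckerMap_apply]
  a_sq i := by
    unfold up
    rw [lab_km, h.a_sq, mul_one]
    ext p q
    simp [Matrix.kroneckerMap_apply]
  ww i j := by
    unfold up
    rw [lab_km, lab_km, h.ww (fi i) (fi j), lab_kn]
  aa i j := by
    unfold up
    rw [lab_km, lab_km, h.aa (fi i) (fi j), lab_kn]
  wa i j hij := by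
    unfold up
    rw [lab_km, lab_km, h.wa (fi i) (fi j) (fun h' => hij (fi_inj h')), lab_kn]
  one i := by
    unfold up
    rw [lab_km, lab_km, mul_one, ← Matrix.kronecker_add, h.one]
    exact Matrix.one_kronecker_one
  tr i := by
    unfold up
    rw [← h.tr (fi i)]
    ext p q
    simp [Matrix.kroneckerMap_apply, Matrix.one_apply, eq_comm]

/-- the colour fermions of Project HB -/
theorem isFermi_fj {w a : LI V C → Matrix D D ℤ} (h : IsFermi w a) :
    Pool.Agent.H19.Cub.IsFermi (w ∘ fj) (a ∘ fj) where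
  w_sq _ := h.w_sq _
  a_sq _ := h.a_sq _
  ww _ _ := h.ww _ _
  aa _ _ := h.aa _ _
  wa _ _ hij := h.wa _ _ fun h' => hij (fj_inj h')
  one _ := h.one _
  tr _ := h.tr _

/-- the Clifford matrix of a colour -/
def gamL (w a : LI V C → Matrix D D ℤ) (c : C) : Matrix D D ℤ := w (.inl c) + a (.inl c)

/-- the nilpotent operators -/
def eL (Γ : ColGraph V C) (w a : LI V C → Matrix D D ℤ) (t : V → ℤ) (v : V) :
    Matrix ((C → Bool) × D) ((C → Bool) × D) ℤ := eC Γ t v ⊗ₖ gamL w a (Γ.col v)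

theorem eL_eq (Γ : ColGraph V C) (w a : LI V C → Matrix D D ℤ) (t : V → ℤ) (v : V) :
    eL Γ w a t v = eK Γ (w ∘ fj) (a ∘ fj) t v := rfl

/-- the homotopies -/
def hL (Γ : ColGraph V C) (w a : LI V C → Matrix D D ℤ) (v : V) :
    Matrix ((C → Bool) × D) ((C → Bool) × D) ℤ := hC Γ v ⊗ₖ gamL w a (Γ.col v)

section

variable {w a : LI V C → Matrix D D ℤ}

theorem gamL_sq (hw : IsFermi w a) (c : C) : gamL w a c * gamL w a c = 1 := by
  unfold gamL
  rw [add_mul, mul_add, mul_add, hw.w_sq, hw.a_sq, zero_add, add_zero]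
  exact hw.one _

private theorem lab_aw {I : Type} {w a : I → Matrix D D ℤ} (hw : IsFermi w a) {i j : I}
    (h : i ≠ j) : a i * w j = -(w j * a i) := by
  rw [hw.wa j i h.symm, neg_neg]

theorem gamL_anti (hw : IsFermi w a) {c c' : C} (h : c ≠ c') :
    gamL w a c * gamL w a c' = -(gamL w a c' * gamL w a c) := by
  have h' : (Sum.inl c : LI V C) ≠ Sum.inl c' := by simpa using h
  unfold gamL
  rw [add_mul, mul_add, mul_add, add_mul, mul_add, mul_add, hw.ww _ _, hw.aa _ (.inl c'),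
    hw.wa _ _ h', lab_aw hw h']
  abel

theorem gamL_w (hw : IsFermi w a) (c : C) (x : V ⊕ V ⊕ Unit) :
    gamL w a c * w (.inr x) = -(w (.inr x) * gamL w a c) := by
  have h' : (Sum.inl c : LI V C) ≠ Sum.inr x := by simp
  unfold gamL
  rw [add_mul, mul_add, hw.ww _ (.inr x), lab_aw hw h']
  abel

theorem gamL_a (hw : IsFermi w a) (c : C) (x : V ⊕ V ⊕ Unit) :
    gamL w a c * a (.inr x) = -(a (.inr x) * gamL w a c) := by
  have h' : (Sum.inl c : LI V C) ≠ Sum.inr x := by simp
  unfold gamL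
  rw [add_mul, mul_add, hw.aa _ (.inr x), hw.wa _ _ h']
  abel

theorem eL_sq (_ : IsFermi w a) (Γ : ColGraph V C) (t : V → ℤ) (v : V) :
    eL Γ w a t v * eL Γ w a t v = 0 := by
  unfold eL
  rw [lab_km, eC_sq]
  ext p q
  simp [Matrix.kroneckerMap_apply]

theorem eL_anti (hw : IsFermi w a) (Γ : ColGraph V C) (t : V → ℤ) {u v : V}
    (h : Γ.col u ≠ Γ.col v) : eL Γ w a t u * eL Γ w a t v = -(eL Γ w a t v * eL Γ w a t u) := by
  unfold eL
  rw [lab_km, lab_km, eC_comm Γ t h, gamL_anti hw h, lab_kn]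

theorem eL_hL (hw : IsFermi w a) (Γ : ColGraph V C) (t : V → ℤ) (v : V) :
    eL Γ w a t v * hL Γ w a v + hL Γ w a v * eL Γ w a t v = 1 := by
  unfold eL hL
  rw [lab_km, lab_km, gamL_sq hw, ← Matrix.add_kronecker, eC_hC]
  exact Matrix.one_kronecker_one

theorem eL_hL_anti (hw : IsFermi w a) (Γ : ColGraph V C) (t : V → ℤ) {u v : V}
    (h : Γ.col u ≠ Γ.col v) : eL Γ w a t u * hL Γ w a v = -(hL Γ w a v * eL Γ w a t u) := by
  unfold eL hL
  rw [lab_km, lab_km, eC_hC_comm Γ t h, gamL_anti hw h, lab_kn]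

theorem eL_up_w (hw : IsFermi w a) (Γ : ColGraph V C) (t : V → ℤ) (v : V) (x : V ⊕ Unit) :
    eL Γ w a t v * up w (.inr x) = -(up w (.inr x) * eL Γ w a t v) := by
  obtain ⟨y, hy⟩ : ∃ y, (fi (.inr x) : LI V C) = .inr y := by
    rcases x with v | u
    · exact ⟨_, rfl⟩
    · exact ⟨_, rfl⟩
  unfold eL up
  rw [hy, lab_km, lab_km, gamL_w hw, lab_kn, one_mul, mul_one]

theorem eL_up_a (hw : IsFermi w a) (Γ : ColGraph V C) (t : V → ℤ) (v : V) (x : V ⊕ Unit) :
    eL Γ w a t v * up a (.inr x) = -(up a (.inr x) * eL Γ w a t v) := by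
  obtain ⟨y, hy⟩ : ∃ y, (fi (.inr x) : LI V C) = .inr y := by
    rcases x with v | u
    · exact ⟨_, rfl⟩
    · exact ⟨_, rfl⟩
  unfold eL up
  rw [hy, lab_km, lab_km, gamL_a hw, lab_kn, one_mul, mul_one]

end

/-! ### over a commutative ring -/

section ring

variable {R : Type} [CommRing R]

private theorem lab_icm {J : Type} [Fintype J] [DecidableEq J] (A B : Matrix J J ℤ) :
    ic R (A * B) = ic R A * ic R B :=
  map_mul (Int.castRingHom R).mapMatrix A B

private theorem lab_icn {J : Type} [Fintype J] [DecidableEq J] (A : Matrix J J ℤ) :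
    ic R (-A) = -ic R A :=
  map_neg (Int.castRingHom R).mapMatrix A

private theorem lab_ics {J : Type} [Fintype J] [DecidableEq J] (A B : Matrix J J ℤ) :
    ic R (A - B) = ic R A - ic R B :=
  map_sub (Int.castRingHom R).mapMatrix A B

private theorem lab_ic0 {J : Type} [Fintype J] [DecidableEq J] :
    ic R (0 : Matrix J J ℤ) = 0 :=
  map_zero (Int.castRingHom R).mapMatrix

variable (Γ : ColGraph V C) (w a : LI V C → Matrix D D ℤ) (t : V → ℤ)

/-- `s e + g` -/
def xL (β : V → V → R) (s : R) (v : V) :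
    Matrix ((C → Bool) × D) ((C → Bool) × D) R :=
  s • ic R (eL Γ w a t v) + gF (up w) (up a) β v

/-- the matrices with `(a u * a v) ^ m = -1` -/
def aL (β : V → V → R) (s : R) (v : V) :
    Matrix ((C → Bool) × D) ((C → Bool) × D) R :=
  xL Γ w a t β s v * cF (up w) (up a) R

/-- the representation of the Coxeter group -/
def bL (β : V → V → R) (s : R) (v : V) :
    Matrix (((C → Bool) × D) × ((C → Bool) × D))
      (((C → Bool) × D) × ((C → Bool) × D)) R :=
  Matrix.kroneckerMap (· * ·) (aL Γ w a t β s v) (aL Γ w a t β 0 v)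

variable {w a}

theorem eL_gF (hw : IsFermi w a) (β : V → V → R) (u v : V) :
    ic R (eL Γ w a t u) * gF (up w) (up a) β v =
      -(gF (up w) (up a) β v * ic R (eL Γ w a t u)) := by
  unfold gF
  rw [mul_add, add_mul, ← lab_icm, ← lab_icm, eL_up_w hw, lab_icn, neg_add, Finset.mul_sum,
    Finset.sum_mul, ← Finset.sum_neg_distrib]
  congr 1
  refine Finset.sum_congr rfl fun x _ => ?_
  rw [mul_smul_comm, smul_mul_assoc, ← lab_icm, ← lab_icm, eL_up_a hw, lab_icn, smul_neg]

theorem eL_cF (hw : IsFermi w a) (v : V) :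
    ic R (eL Γ w a t v) * cF (up w) (up a) R =
      -(cF (up w) (up a) R * ic R (eL Γ w a t v)) := by
  unfold cF
  rw [← lab_icm, ← lab_icm, mul_sub, sub_mul, eL_up_w hw, eL_up_a hw, ← lab_icn]
  congr 1
  abel

theorem xL_cF (hw : IsFermi w a) (β : V → V → R) (s : R) (v : V) :
    xL Γ w a t β s v * cF (up w) (up a) R =
      -(cF (up w) (up a) R * xL Γ w a t β s v) := by
  unfold xL
  rw [mul_add, add_mul, mul_smul_comm, smul_mul_assoc, eL_cF Γ t hw, gF_cF (isFermi_up hw),
    smul_neg, neg_add]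

theorem aL_mul (hw : IsFermi w a) (β : V → V → R) (s : R) (u v : V) :
    aL Γ w a t β s u * aL Γ w a t β s v = xL Γ w a t β s u * xL Γ w a t β s v := by
  unfold aL
  have h := xL_cF (R := R) Γ t hw β s v
  have h1 := cF_sq (R := R) (isFermi_up hw)
  rw [← neg_eq_iff_eq_neg] at h
  rw [mul_assoc, ← mul_assoc (cF (up w) (up a) R), ← h, neg_mul, mul_assoc
    (xL Γ w a t β s v), h1, mul_neg, mul_neg, mul_neg, mul_one, neg_neg]

theorem aL_sq (hw : IsFermi w a) (β : V → V → R) (s : R) (v : V) (hβ : β v v = 1) :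
    aL Γ w a t β s v * aL Γ w a t β s v = 1 := by
  have h1 : ic R (eL Γ w a t v) * ic R (eL Γ w a t v) = 0 := by
    rw [← lab_icm, eL_sq hw, lab_ic0]
  have h2 := gF_sq (isFermi_up hw) β v
  have h3 : ic R (eL Γ w a t v) * gF (up w) (up a) β v +
      gF (up w) (up a) β v * ic R (eL Γ w a t v) = 0 := by
    rw [eL_gF Γ t hw, neg_add_cancel]
  rw [hβ, one_smul] at h2
  rw [aL_mul Γ t hw]
  unfold xL
  have e : (s • ic R (eL Γ w a t v) + gF (up w) (up a) β v) *
      (s • ic R (eL Γ w a t v) + gF (up w) (up a) β v) =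
      (s * s) • (ic R (eL Γ w a t v) * ic R (eL Γ w a t v)) +
        gF (up w) (up a) β v * gF (up w) (up a) β v +
        s • (ic R (eL Γ w a t v) * gF (up w) (up a) β v +
          gF (up w) (up a) β v * ic R (eL Γ w a t v)) := by
    rw [add_mul, mul_add, mul_add, smul_mul_smul_comm, smul_mul_assoc, mul_smul_comm, smul_add]
    abel
  rw [e, h1, h2, h3, smul_zero, smul_zero, zero_add, add_zero]

theorem aL_anti (hw : IsFermi w a) (β : V → V → R) (s : R) {u v : V}
    (huv : Γ.col u ≠ Γ.col v) :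
    aL Γ w a t β s u * aL Γ w a t β s v + aL Γ w a t β s v * aL Γ w a t β s u =
      (β u v + β v u) • (1 : Matrix ((C → Bool) × D) ((C → Bool) × D) R) := by
  have h1 : ic R (eL Γ w a t u) * ic R (eL Γ w a t v) +
      ic R (eL Γ w a t v) * ic R (eL Γ w a t u) = 0 := by
    rw [← lab_icm, ← lab_icm, eL_anti hw Γ t huv, lab_icn, neg_add_cancel]
  have h2 := gF_anti (isFermi_up hw) β u v
  have h3 : ic R (eL Γ w a t u) * gF (up w) (up a) β v +
      gF (up w) (up a) β v * ic R (eL Γ w a t u) = 0 := by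
    rw [eL_gF Γ t hw, neg_add_cancel]
  have h4 : ic R (eL Γ w a t v) * gF (up w) (up a) β u +
      gF (up w) (up a) β u * ic R (eL Γ w a t v) = 0 := by
    rw [eL_gF Γ t hw, neg_add_cancel]
  rw [aL_mul Γ t hw, aL_mul Γ t hw, ← h2]
  unfold xL
  have e : (s • ic R (eL Γ w a t u) + gF (up w) (up a) β u) *
      (s • ic R (eL Γ w a t v) + gF (up w) (up a) β v) +
      (s • ic R (eL Γ w a t v) + gF (up w) (up a) β v) *
      (s • ic R (eL Γ w a t u) + gF (up w) (up a) β u) =
      (s * s) • (ic R (eL Γ w a t u) * ic R (eL Γ w a t v) +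
        ic R (eL Γ w a t v) * ic R (eL Γ w a t u)) +
        (gF (up w) (up a) β u * gF (up w) (up a) β v +
          gF (up w) (up a) β v * gF (up w) (up a) β u) +
        (s • (ic R (eL Γ w a t u) * gF (up w) (up a) β v +
          gF (up w) (up a) β v * ic R (eL Γ w a t u)) +
          s • (ic R (eL Γ w a t v) * gF (up w) (up a) β u +
            gF (up w) (up a) β u * ic R (eL Γ w a t v))) := by
    simp only [add_mul, mul_add, smul_mul_assoc, mul_smul_comm, smul_add, mul_smul]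
    abel
  rw [e, h1, h3, h4, smul_zero, smul_zero, zero_add, add_zero, add_zero]

/-- compatibility with ring homomorphisms -/
theorem aL_map {R' : Type} [CommRing R'] (f : R →+* R') (β : V → V → R) (s : R) (v : V) :
    (aL Γ w a t β s v).map f = aL Γ w a t (fun u v => f (β u v)) (f s) v := by
  have hic : ∀ A : Matrix ((C → Bool) × D) ((C → Bool) × D) ℤ,
      f.mapMatrix (ic R A) = ic R' A := by
    intro A
    ext i j
    simp [ic]
  have hsm : ∀ (r : R) (A : Matrix ((C → Bool) × D) ((C → Bool) × D) R),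
      f.mapMatrix (r • A) = f r • f.mapMatrix A := by
    intro r A
    ext i j
    simp
  show f.mapMatrix (aL Γ w a t β s v) = _
  unfold aL xL gF cF
  rw [map_mul, map_add, map_add, map_sum, hsm, hic, hic, hic]
  simp only [hsm, hic]

theorem aL_pow (hw : IsFermi w a) (τ : R →+* ℝ) (hτ : Function.Injective τ) {ν : V → ℕ}
    (hν : Function.Injective ν) {c : V → V → R} (hc : ∀ u v, c u v = c v u)
    (s : R) {u v : V} (huv : Γ.col u ≠ Γ.col v) {m : ℕ}
    (hm : 2 ≤ m) (hcm : τ (c u v) = 2 * Real.cos (Real.pi / m)) :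
    (aL Γ w a t (bet ν c) s u * aL Γ w a t (bet ν c) s v) ^ m = -1 := by
  have hne : u ≠ v := fun h => huv (by rw [h])
  have hinj : Function.Injective (τ.mapMatrix :
      Matrix ((C → Bool) × D) ((C → Bool) × D) R →+*
        Matrix ((C → Bool) × D) ((C → Bool) × D) ℝ) := by
    intro A B hAB
    ext i j
    exact hτ (congrFun (congrFun hAB i) j)
  apply hinj
  rw [map_pow, map_mul, map_neg, map_one]
  have hau : ∀ u, τ.mapMatrix (aL Γ w a t (bet ν c) s u) =
      aL Γ w a t (bet ν fun u v => τ (c u v)) (τ s) u := by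
    intro u
    have h1 := aL_map (w := w) (a := a) Γ t τ (bet ν c) s u
    simp only [bet_map] at h1
    exact h1
  rw [hau, hau]
  have h2u := aL_sq Γ t hw (bet ν fun u v => τ (c u v)) (τ s) u (bet_self _ _ _)
  have h2v := aL_sq Γ t hw (bet ν fun u v => τ (c u v)) (τ s) v (bet_self _ _ _)
  have h3 := aL_anti Γ t hw (bet ν fun u v => τ (c u v)) (τ s) huv
  rw [bet_add hν (fun u v => by rw [hc u v]) hne, hcm] at h3
  generalize aL Γ w a t (bet ν fun u v => τ (c u v)) (τ s) u = U at *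
  generalize aL Γ w a t (bet ν fun u v => τ (c u v)) (τ s) v = W at *
  refine rot_pow (Y := W * U) ?_ ?_ hm h3
  · rw [mul_assoc, ← mul_assoc W W U, h2v, one_mul, h2u]
  · rw [mul_assoc, ← mul_assoc U U W, h2u, one_mul, h2v]

theorem bL_sq (hw : IsFermi w a) (ν : V → ℕ) (c : V → V → R) (s : R) (v : V) :
    bL Γ w a t (bet ν c) s v * bL Γ w a t (bet ν c) s v = 1 := by
  unfold bL
  have h1 := aL_sq Γ t hw (bet ν c) s v (bet_self _ _ _)
  have h2 := aL_sq Γ t hw (bet ν c) 0 v (bet_self _ _ _)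
  have h3 := Matrix.mul_kronecker_mul (aL Γ w a t (bet ν c) s v) (aL Γ w a t (bet ν c) s v)
    (aL Γ w a t (bet ν c) 0 v) (aL Γ w a t (bet ν c) 0 v)
  rw [h1, h2] at h3
  rw [← h3]
  exact Matrix.one_kronecker_one

private theorem lab_kp {J : Type} [Fintype J] [DecidableEq J] (A B : Matrix J J R) (m : ℕ) :
    (Matrix.kroneckerMap (· * ·) A B) ^ m = Matrix.kroneckerMap (· * ·) (A ^ m) (B ^ m) := by
  induction m with
  | zero =>
    rw [pow_zero, pow_zero, pow_zero]
    exact Matrix.one_kronecker_one.symm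
  | succ m ih =>
    rw [pow_succ, pow_succ, pow_succ, ih]
    exact (Matrix.mul_kronecker_mul _ _ _ _).symm

theorem bL_pow (hw : IsFermi w a) (τ : R →+* ℝ) (hτ : Function.Injective τ) {ν : V → ℕ}
    (hν : Function.Injective ν) {c : V → V → R} (hc : ∀ u v, c u v = c v u)
    (s : R) {u v : V} (huv : Γ.col u ≠ Γ.col v) {m : ℕ}
    (hm : 2 ≤ m) (hcm : τ (c u v) = 2 * Real.cos (Real.pi / m)) :
    (bL Γ w a t (bet ν c) s u * bL Γ w a t (bet ν c) s v) ^ m = 1 := by
  unfold bL
  have h1 := aL_pow Γ t hw τ hτ hν hc s huv hm hcm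
  have h2 := aL_pow Γ t hw τ hτ hν hc 0 huv hm hcm
  have h3 := Matrix.mul_kronecker_mul (aL Γ w a t (bet ν c) s u) (aL Γ w a t (bet ν c) s v)
    (aL Γ w a t (bet ν c) 0 u) (aL Γ w a t (bet ν c) 0 v)
  rw [← h3]
  refine (lab_kp _ _ m).trans ?_
  rw [h1, h2]
  ext ⟨i, i'⟩ ⟨j, j'⟩
  simp only [Matrix.kroneckerMap_apply, Matrix.neg_apply, neg_mul_neg, Matrix.one_apply]
  by_cases hi : i = j
  · by_cases hj : i' = j'
    · simp [hi, hj]
    · simp [hj]
  · simp [hi]

end ring

end Pool.Agent.H85.Lab
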