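import Pool.Agent.H85.Lab.RealL
import Pool.Agent.H4.FC.NumK
import Pool.Agent.H4.FC.RestrL
import Pool.Agent.H4.FC.FinalL
import Pool.Agent.H85.Fold2.IntMod

/-!
# Project LAB: the transfer theorem for Coxeter groups with arbitrary labels

`M` is a Coxeter matrix of FC type (every set of generators which are pairwise adjacent generates a
finite group), and `Γ` a colouring of the generators such that adjacent generators have different
colours. If for every clique `τ` with `2 b` elements the complex of the link of `τ` is exact in degree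
`i - b`, then the reduced `ℓ²`-homology of the Davis complex vanishes in degree `i`.
-/

set_option autoImplicit false
set_option linter.unusedSectionVars false

open Finset

namespace Pool.Agent.H85.Lab

open Pool.Agent.H4.Singer Pool.Agent.H85.Fold Pool.Agent.H85.Fold2 Pool.Agent.H4.FC
  Pool.Agent.H4.FD Pool.Agent.H4.HY

variable {V C : Type} [DecidableEq V] [Fintype V] [DecidableEq C]

/-- **Integer parameters**, degrees which depend on `x`. -/
theorem exists_int_vanD [Fintype C] {X : Type} [Fintype X] (ν : V → ℕ)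
    (hν : Function.Injective ν) (Γ : ColGraph V C) (U : X → Finset V) (i : X → ℕ)
    (h : ∀ x, ∃ (K : Type) (_ : Field K) (t : V → K), VanS K ν Γ t (U x) (i x)) :
    ∃ t : V → ℤ, ∀ x, VanS ℝ ν Γ (fun v => (t v : ℝ)) (U x) (i x) := by
  obtain ⟨t, ht⟩ := exists_int_point (fun x => prjY Γ (U x) (i x))
    (fun x => prjY Γ (U x) (i x + 1))
    (dmS ν Γ) (fun x => prjY_idem Γ (U x) (i x)) (fun x => prjY_idem Γ (U x) (i x + 1))
    (fun x => by
      obtain ⟨K, hK, t, ht⟩ := h x
      exact ⟨K, hK, t, (exAt_iff ν Γ t (U x) (i x)).2 ht⟩)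
    (fun x t y hy => by
      have hy' := (prjY_fix Γ (U x) (i x + 1) y).1 hy
      have e : ∀ w : Finset V × (C → Bool) → ℝ, Matrix.mulVec ((dmS ν Γ).map (Pool.Agent.H4.HY.ev fun v =>
          (t v : ℝ))) w = fun p => bdS ν Γ (fun v => (t v : ℝ)) (fun σ a => w (σ, a)) p.1 p.2 := by
        intro w
        funext p
        exact dmS_mul ν Γ _ w p
      constructor
      · rw [prjY_fix, e]
        exact isChain_bdS ν Γ _ hy'
      · rw [e, e]
        funext p
        exact congrFun (congrFun (bdS_bdS ν hν Γ (fun v => (t v : ℝ)) fun σ a => y (σ, a)) p.1)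
          p.2)
  exact ⟨t, fun x => (exAt_iff ν Γ _ (U x) (i x)).1 (ht x)⟩

variable [Fintype C]

/-- the local condition -/
def LocHV (G : SimpleGraph V) (Γ : ColGraph V C) (ν : V → ℕ) (t : V → ℤ) (i : ℕ) : Prop :=
  ∀ (D : Type) [Fintype D] [DecidableEq D] (w a : C ⊕ V ⊕ V → Matrix D D ℤ),
    Pool.Agent.H19.Cub.IsFermi w a → ∀ (τ : Finset V) (b j : ℕ), Γ.Cl τ → τ.card = 2 * b →
      j + b = i → HV ν G (fun v => Pool.Agent.H19.Cub.opM (eK Γ w a t v)) ⊤ (lkS Γ τ) j

/-- **Integer representations with exact twisted complexes.** -/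
theorem exists_modL (M : CoxeterMatrix V) (hM : IsFC M) (Γ : ColGraph V C)
    (hG : ∀ u v, (gr M).Adj u v ↔ Γ.adj u v) {ν : V → ℕ} (hν : Function.Injective ν)
    (t : V → ℤ) (i : ℕ) (h : LocHV (gr M) Γ ν t i) :
    ∃ ρ : IModL M, Nonempty ρ.D ∧ ∀ (P : Type) [Group P] [Fintype P] (g : V → P), IsGen M g →
      YZ ℝ (gr M) univ (mc ℝ ρ.A) (fun v x => x * g v) ν i ≤
        YB ℝ (gr M) univ (mc ℝ ρ.A) (fun v x => x * g v) ν i := by
  obtain ⟨K, iK, iN, τ, P', Q', z, hf', hz⟩ := exists_intdata (W := Empty) ⊥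
    (n := 0) (k := 0) (fun v => v.elim) (fun v => v.elim)
    ⟨fun u => u.elim, fun u => u.elim⟩ (ι := V × V)
    (fun uv => 2 * Real.cos (Real.pi / M uv.1 uv.2)) (fun uv => two_cos_integral _)
  obtain ⟨D, iD, dD, nD, w, a, hw⟩ := exists_fermi (LI V C)
  have hcl : ∀ σ, Fold.Cl (gr M) σ ↔ Γ.Cl σ := by
    intro σ
    constructor
    · intro h u hu v hv huv
      exact (hG u v).1 (h u hu v hv huv)
    · intro h u hu v hv huv
      exact (hG u v).2 (h u hu v hv huv)
  obtain ⟨t₀, ht₀⟩ := bL_exact hw M hM Γ hG hν t i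
    (fun τ b j hτ hb hj => h D (w ∘ fj) (a ∘ fj) (isFermi_fj hw) τ b j ((hcl τ).1 hτ) hb hj)
  obtain ⟨N, hN⟩ := exists_nat_ge t₀
  let f : NumberField.RingOfIntegers K →+* ℝ :=
    τ.comp (algebraMap (NumberField.RingOfIntegers K) K)
  have hinj : Function.Injective f :=
    τ.injective.comp NumberField.RingOfIntegers.coe_injective
  let c : V → V → NumberField.RingOfIntegers K := fun u v => z (u, v)
  have hcf : ∀ u v, f (c u v) = 2 * Real.cos (Real.pi / M u v) := fun u v => hz (u, v)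
  have hc : ∀ u v, c u v = c v u := by
    intro u v
    apply hinj
    rw [hcf, hcf, M.symmetric]
  let B : V → Matrix (((C → Bool) × D) × ((C → Bool) × D)) (((C → Bool) × D) × ((C → Bool) × D))
      (NumberField.RingOfIntegers K) := fun v =>
    bL Γ w a t (bet ν c) (N : NumberField.RingOfIntegers K) v
  have hrel : ∀ u v, (B u * B v) ^ M u v = 1 := by
    intro u v
    by_cases h0 : M u v = 0
    · rw [h0, pow_zero]
    · by_cases huv : u = v
      · subst huv
        rw [M.diagonal, pow_one]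
        exact bL_sq Γ t hw ν c _ u
      · have hadj' : Γ.adj u v := (hG u v).1 ⟨huv, h0⟩
        have h1 : M u v ≠ 1 := M.off_diagonal u v huv
        exact bL_pow Γ t hw f hinj hν hc _ (Γ.ne u v hadj') (by omega) (hcf u v)
  obtain ⟨D', iD', dD', Φ, hΦ, hne, hex⟩ := restrict_scalarsL K (((C → Bool) × D) × ((C → Bool) × D))
  refine ⟨⟨D', iD', dD', fun v => Φ (B v), fun u v => ?_⟩, ?_, ?_⟩
  · rw [← map_mul, ← map_pow, hrel, map_one]
  · exact hne inferInstance
  · intro P _ _ g hg
    refine hex τ V (gr M) B univ ν i P (fun v x => x * g v) ?_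
    have h2 : (fun v => (B v).map fun x : NumberField.RingOfIntegers K => τ (x : K)) =
        bL Γ w a t (bet ν fun u v => 2 * Real.cos (Real.pi / M u v)) (N : ℝ) := by
      funext v
      have h4 : (fun u v => f (bet ν c u v)) =
          bet ν fun u v => 2 * Real.cos (Real.pi / M u v) := by
        funext u v
        rw [bet_map]
        congr 1
        funext u v
        exact hcf u v
      have h5 := aL_map (w := w) (a := a) Γ t f (bet ν c) (N : NumberField.RingOfIntegers K) v
      have h6 := aL_map (w := w) (a := a) Γ t f (bet ν c) 0 v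
      rw [map_natCast, h4] at h5
      rw [map_zero, h4] at h6
      have h7 : (B v).map (fun x : NumberField.RingOfIntegers K => τ (x : K)) =
          Matrix.kroneckerMap (· * ·) ((aL Γ w a t (bet ν c)
            (N : NumberField.RingOfIntegers K) v).map f)
            ((aL Γ w a t (bet ν c) (0 : NumberField.RingOfIntegers K) v).map f) := by
        ext p q
        exact map_mul f _ _
      rw [h7, h5, h6]
      rfl
    rw [h2]
    exact ht₀ (N : ℝ) hN P g hg

/-- **The transfer theorem, local exactness of the complexes with coefficients in the kernels.** -/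
theorem lab_of_hv (M : CoxeterMatrix V) (hM : IsFC M) (Γ : ColGraph V C)
    (hG : ∀ u v, (gr M).Adj u v ↔ Γ.adj u v) (i : ℕ)
    (h : ∀ ν : V → ℕ, Function.Injective ν → ∃ t : V → ℤ, LocHV (gr M) Γ ν t i) :
    L2HomologyZero M i := by
  intro ν hν z hz hdz ε hε
  obtain ⟨t, ht⟩ := h ν hν
  obtain ⟨ρ, hne, hex⟩ := exists_modL M hM Γ hG hν t i ht
  have hS : ∀ σ, Sph M σ ↔ Fold.Cl (gr M) σ := fun σ => ⟨sph_cl M σ, hM σ⟩
  have h0 := harm_zeroL M hS hν i ρ (fun η hη => growL ρ ν i hex η hη)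
  exact l2_hodgeL M ν hν i h0 z hz hdz ε hε

/-- **The transfer theorem.** -/
theorem lab_of_van (M : CoxeterMatrix V) (hM : IsFC M) (Γ : ColGraph V C)
    (hG : ∀ u v, (gr M).Adj u v ↔ Γ.adj u v) (i : ℕ)
    (h : ∀ (τ : Finset V) (b j : ℕ), Γ.Cl τ → τ.card = 2 * b → j + b = i →
      ∃ (K : Type) (_ : Field K) (_ : CharP K 2) (t : V → K), Van Γ t (lkS Γ τ) j) :
    L2HomologyZero M i := by
  classical
  refine lab_of_hv M hM Γ hG i fun ν hν => ?_
  obtain ⟨t, ht⟩ := exists_int_vanD (X := {p : Finset V × Fin (i + 1) // Γ.Cl p.1 ∧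
      ∃ b, p.1.card = 2 * b ∧ (p.2 : ℕ) + b = i}) ν hν Γ (fun x => lkS Γ x.1.1)
    (fun x => (x.1.2 : ℕ))
    (fun x => by
      obtain ⟨b, hb, hj⟩ := x.2.2
      obtain ⟨K, hK, hK2, t, ht⟩ := h x.1.1 b x.1.2 x.2.1 hb hj
      exact ⟨K, hK, t, vanS_of_van ν Γ t _ _ ht⟩)
  exact ⟨t, fun D _ _ w a hw τ b j hτ hb hj =>
    hv_of_vanS hw ν Γ (gr M) hG t (lkS Γ τ) j (ht ⟨(τ, ⟨j, by omega⟩), hτ, b, hb, hj⟩)⟩

end Pool.Agent.H85.Lab
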