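import Pool.Agent.H85.Lab.Red
import Pool.Agent.H4.FD.ExactP
import Pool.Agent.H4.FD.LCsph
import Pool.Agent.H4.FD.BaseQ
import Pool.Agent.H4.FC.IModDefs

/-!
# Project LAB: real exactness

As `Pool.Agent.H4.FD.RealExP`, for coloured graphs.
-/

set_option autoImplicit false
set_option linter.unusedSectionVars false

open Finset

namespace Pool.Agent.H85.Lab

open Pool.Agent.H4.Singer Pool.Agent.H85.Fold Pool.Agent.H85.Fold2 Pool.Agent.H4.FC
  Pool.Agent.H4.FD Pool.Agent.H4.HY

/-- the real operator of a real matrix -/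
private noncomputable def rop {D : Type} [Fintype D] [DecidableEq D] (A : Matrix D D ℝ) :
    (D → ℝ) →ₗ[ℝ] (D → ℝ) := Matrix.toLin' A

section

variable {D : Type} [Fintype D] [DecidableEq D]

private theorem rop_mul (A B : Matrix D D ℝ) (x : D → ℝ) : rop (A * B) x = rop A (rop B x) := by
  unfold rop
  rw [Matrix.toLin'_mul]
  rfl

private theorem rop_neg (A : Matrix D D ℝ) : rop (-A) = -rop A := by
  unfold rop
  rw [map_neg]

private theorem rop_one (x : D → ℝ) : rop (1 : Matrix D D ℝ) x = x := by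
  unfold rop
  rw [Matrix.toLin'_one]
  rfl

private theorem rop_smul (r : ℝ) (A : Matrix D D ℝ) : rop (r • A) = r • rop A := by
  unfold rop
  rw [map_smul]

private theorem rop_add (A B : Matrix D D ℝ) : rop (A + B) = rop A + rop B := by
  unfold rop
  rw [map_add]

private theorem rop_apply (A : Matrix D D ℝ) (x : D → ℝ) : rop A x = A.mulVec x := rfl

private theorem rop_anti {A B : Matrix D D ℝ} (h : A * B = -(B * A)) (x : D → ℝ) :
    rop A (rop B x) = -rop B (rop A x) := by
  rw [← rop_mul, h, rop_neg, LinearMap.neg_apply, rop_mul]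

/-- the dot product -/
private noncomputable def dotR (D : Type) [Fintype D] : (D → ℝ) →ₗ[ℝ] (D → ℝ) →ₗ[ℝ] ℝ :=
  LinearMap.mk₂ ℝ (fun x y => x ⬝ᵥ y) (fun x y z => add_dotProduct x y z)
    (fun c x y => smul_dotProduct c x y) (fun x y z => dotProduct_add x y z)
    (fun c x y => dotProduct_smul c x y)

omit [DecidableEq D] in
private theorem dotR_apply (x y : D → ℝ) : dotR D x y = x ⬝ᵥ y := rfl

private theorem rop_adj (A : Matrix D D ℝ) (x y : D → ℝ) :
    dotR D (rop A x) y = dotR D x (rop A.transpose y) := by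
  simp only [dotR_apply, rop_apply]
  rw [Matrix.mulVec_transpose, dotProduct_comm, Matrix.dotProduct_mulVec, dotProduct_comm]

end

/-! ### The representation -/

section

variable {D Γ : Type} [Fintype D] [DecidableEq D] [Group Γ] [Fintype Γ] [DecidableEq Γ]

/-- right translations -/
private def rho (g : Γ) : Matrix Γ Γ ℝ := Matrix.of fun x x' => if x' = x * g then 1 else 0

private theorem rho_mul (g h : Γ) : rho g * rho h = rho (g * h) := by
  ext x z
  simp only [Matrix.mul_apply, rho, Matrix.of_apply]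
  rw [Finset.sum_eq_single (x * g)]
  · simp [mul_assoc]
  · intro y _ hy
    simp [hy]
  · intro h
    exact absurd (Finset.mem_univ _) h

omit [Fintype Γ] in
private theorem rho_one : rho (1 : Γ) = 1 := by
  ext x z
  simp only [rho, Matrix.of_apply, mul_one, Matrix.one_apply]
  by_cases h : z = x
  · simp [h]
  · simp [h, Ne.symm h]

/-- the matrices of the representation -/
private def jM (S : Matrix D D ℝ) (g : Γ) : Matrix (D × Γ) (D × Γ) ℝ :=
  Matrix.kroneckerMap (· * ·) S (rho g)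

omit [DecidableEq D] in
private theorem jM_mul (S T : Matrix D D ℝ) (g h : Γ) : jM S g * jM T h = jM (S * T) (g * h) := by
  unfold jM
  rw [← rho_mul]
  exact (Matrix.mul_kronecker_mul S T (rho g) (rho h)).symm

omit [Fintype D] [Fintype Γ] in
private theorem jM_one : jM (1 : Matrix D D ℝ) (1 : Γ) = 1 := by
  unfold jM
  rw [rho_one]
  exact Matrix.one_kronecker_one

private theorem jM_pow (S : Matrix D D ℝ) (g : Γ) (m : ℕ) : jM S g ^ m = jM (S ^ m) (g ^ m) := by
  induction m with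
  | zero => simp only [pow_zero]; exact jM_one.symm
  | succ m ih => rw [pow_succ, pow_succ, pow_succ, ih, jM_mul]

omit [Fintype D] [DecidableEq D] [Fintype Γ] in
private theorem jM_neg (S : Matrix D D ℝ) (g : Γ) : jM (-S) g = -jM S g := by
  ext i j
  simp [jM, Matrix.kroneckerMap_apply]

omit [DecidableEq D] in
private theorem jM_rb (S : Matrix D D ℝ) (g : Γ) {κ : ℝ} (h : ∀ d, ∑ d', |S d d'| ≤ κ) :
    RB κ (jM S g) := by
  rintro ⟨d, x⟩
  rw [Fintype.sum_prod_type]
  refine le_trans (le_of_eq ?_) (h d)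
  refine Finset.sum_congr rfl fun d' _ => ?_
  rw [Finset.sum_eq_single (x * g)]
  · simp [jM, Matrix.kroneckerMap_apply, rho]
  · intro y _ hy
    simp [jM, Matrix.kroneckerMap_apply, rho, hy]
  · intro h
    exact absurd (Finset.mem_univ _) h

/-- the matrix of a value -/
private def mt (f : D × D → ℝ) : Matrix D D ℝ := Matrix.of fun d₁ d₂ => f (d₁, d₂)

omit [Fintype D] [DecidableEq D] in
private theorem mt_inj {f f' : D × D → ℝ} (h : mt f = mt f') : f = f' := by
  funext d
  exact congrFun (congrFun h d.1) d.2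

omit [DecidableEq D] in
private theorem mt_kron (A S : Matrix D D ℝ) (f : D × D → ℝ) :
    mt ((Matrix.kroneckerMap (· * ·) A S).mulVec f) = A * mt f * S.transpose := by
  ext d₁ d₂
  simp only [mt, Matrix.of_apply, Matrix.mulVec, dotProduct, Matrix.mul_apply,
    Matrix.kroneckerMap_apply, Fintype.sum_prod_type, Matrix.transpose_apply, Finset.sum_mul]
  rw [Finset.sum_comm]
  refine Finset.sum_congr rfl fun x _ => Finset.sum_congr rfl fun y _ => ?_
  ring

omit [Fintype D] [DecidableEq D] in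
private theorem mt_neg (f : D × D → ℝ) : mt (-f) = -mt f := rfl

/-- the chains as functions on `D × Γ` -/
private def toF {V : Type} (f : Finset V → Γ → D × D → ℝ) : Finset V → D × Γ → D → ℝ :=
  fun σ ω d₁ => f σ ω.2 (d₁, ω.1)

/-- the inverse -/
private def ofF {V : Type} (g : Finset V → D × Γ → D → ℝ) : Finset V → Γ → D × D → ℝ :=
  fun σ x d => g σ (d.2, x) d.1

omit [Fintype D] [DecidableEq D] [Group Γ] [Fintype Γ] [DecidableEq Γ] in
private theorem to_of {V : Type} (g : Finset V → D × Γ → D → ℝ) : toF (ofF g) = g := rfl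

/-- the operator of the twisted condition in terms of matrices -/
private theorem xop_iff {V : Type} (f : Finset V → Γ → D × D → ℝ) (σ : Finset V)
    (E Gm C S : Matrix D D ℝ) (t : ℝ) (g : Γ) :
    (∀ ω : D × Γ, t • rop E (toF f σ ω) + rop Gm (toF f σ ω) +
      rop C (actL (jM S g) (toF f σ) ω) = 0) ↔
    ∀ x : Γ, (t • E + Gm) * mt (f σ x) + C * (mt (f σ (x * g)) * S.transpose) = 0 := by
  have hact : ∀ (d₂ : D) (x : Γ) (d₁ : D), actL (jM S g) (toF f σ) (d₂, x) d₁ =
      (mt (f σ (x * g)) * S.transpose) d₁ d₂ := by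
    intro d₂ x d₁
    simp only [actL, LinearMap.coe_mk, AddHom.coe_mk, Finset.sum_apply, Pi.smul_apply,
      smul_eq_mul, Fintype.sum_prod_type, Matrix.mul_apply, Matrix.transpose_apply]
    refine Finset.sum_congr rfl fun d' _ => ?_
    rw [Finset.sum_eq_single (x * g)]
    · simp [jM, Matrix.kroneckerMap_apply, rho, toF, mt, mul_comm]
    · intro y _ hy
      simp [jM, Matrix.kroneckerMap_apply, rho, hy]
    · intro h
      exact absurd (Finset.mem_univ _) h
  have hkey : ∀ (d₂ : D) (x : Γ) (d₁ : D),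
      (t • rop E (toF f σ (d₂, x)) + rop Gm (toF f σ (d₂, x)) +
        rop C (actL (jM S g) (toF f σ) (d₂, x))) d₁ =
      ((t • E + Gm) * mt (f σ x) + C * (mt (f σ (x * g)) * S.transpose)) d₁ d₂ := by
    intro d₂ x d₁
    have h1 : ∀ (A : Matrix D D ℝ), rop A (toF f σ (d₂, x)) d₁ = (A * mt (f σ x)) d₁ d₂ := by
      intro A
      simp only [rop_apply, Matrix.mulVec, dotProduct, Matrix.mul_apply, toF, mt,
        Matrix.of_apply]
    have h2 : rop C (actL (jM S g) (toF f σ) (d₂, x)) d₁ =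
        (C * (mt (f σ (x * g)) * S.transpose)) d₁ d₂ := by
      rw [rop_apply, Matrix.mul_apply]
      simp only [Matrix.mulVec, dotProduct]
      exact Finset.sum_congr rfl fun d' _ => by rw [hact]
    simp only [Pi.add_apply, Pi.smul_apply, smul_eq_mul]
    rw [h1, h1, h2, Matrix.add_apply, Matrix.add_mul, Matrix.add_apply, Matrix.smul_mul,
      Matrix.smul_apply, smul_eq_mul]
  constructor
  · intro h x
    ext d₁ d₂
    rw [← hkey, h (d₂, x)]
    rfl
  · rintro h ⟨d₂, x⟩
    funext d₁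
    rw [hkey, h x]
    rfl

omit [Fintype Γ] [DecidableEq Γ] in
/-- the twisted conditions agree -/
private theorem tw_iff {V : Type} (f : Finset V → Γ → D × D → ℝ) (σ : Finset V)
    {E Gm C S : Matrix D D ℝ} {t : ℝ} {g : Γ} (hS : S * S = 1) (hC : C * C = -1)
    (hE : (t • E + Gm) * C = -(C * (t • E + Gm))) :
    (∀ x : Γ, (t • E + Gm) * mt (f σ x) + C * (mt (f σ (x * g)) * S.transpose) = 0) ↔
    ∀ x : Γ, f σ (x * g) =
      -(Matrix.kroneckerMap (· * ·) ((t • E + Gm) * C) S).mulVec (f σ x) := by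
  have hST : S.transpose * S.transpose = 1 := by
    rw [← Matrix.transpose_mul, hS, Matrix.transpose_one]
  refine forall_congr' fun x => ⟨fun h => ?_, fun h => ?_⟩
  · refine mt_inj ?_
    rw [mt_neg, mt_kron]
    have h1 : C * ((t • E + Gm) * mt (f σ x)) +
        C * (C * (mt (f σ (x * g)) * S.transpose)) = 0 := by
      rw [← Matrix.mul_add, h, Matrix.mul_zero]
    rw [← Matrix.mul_assoc, ← Matrix.mul_assoc C C, hC, neg_mul, one_mul] at h1
    have h2 : C * (t • E + Gm) = -((t • E + Gm) * C) := by rw [hE, neg_neg]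
    rw [h2, neg_mul, ← neg_add, neg_eq_zero] at h1
    have h3 : mt (f σ (x * g)) * S.transpose = -((t • E + Gm) * C * mt (f σ x)) :=
      eq_neg_of_add_eq_zero_right h1
    calc mt (f σ (x * g)) = mt (f σ (x * g)) * S.transpose * S.transpose := by
          rw [Matrix.mul_assoc, hST, Matrix.mul_one]
      _ = _ := by rw [h3, neg_mul]
  · have h0 : mt (f σ (x * g)) = -((t • E + Gm) * C * mt (f σ x) * S.transpose) := by
      rw [h, mt_neg, mt_kron]
    rw [h0, neg_mul, Matrix.mul_assoc _ S.transpose S.transpose, hST, Matrix.mul_one,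
      Matrix.mul_neg, Matrix.mul_assoc (t • E + Gm) C, ← Matrix.mul_assoc C (t • E + Gm)]
    have h2 : C * (t • E + Gm) = -((t • E + Gm) * C) := by rw [hE, neg_neg]
    rw [h2, neg_mul, neg_neg, Matrix.mul_assoc, ← Matrix.mul_assoc C C, hC, neg_mul, one_mul,
      Matrix.mul_neg, add_neg_cancel]

end

/-- **Real exactness.** -/
theorem bL_exact {V C D : Type} [DecidableEq V] [Fintype V] [DecidableEq C] [Fintype C]
    [Fintype D] [DecidableEq D] {w a : LI V C → Matrix D D ℤ} (hw : IsFermi w a)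
    (M : CoxeterMatrix V) (hM : IsFC M) (Γ : ColGraph V C)
    (hG : ∀ u v, (gr M).Adj u v ↔ Γ.adj u v) {ν : V → ℕ} (hν : Function.Injective ν)
    (t : V → ℤ) (i : ℕ)
    (hH : ∀ (τ : Finset V) (b j : ℕ), Fold.Cl (gr M) τ → τ.card = 2 * b → j + b = i →
      HV ν (gr M) (fun v => opZ (eL Γ w a t v)) ⊤ (lkS Γ τ) j) :
    ∃ s₀ : ℝ, ∀ s : ℝ, s₀ ≤ s → ∀ (P : Type) [Group P] [Fintype P] (g : V → P), IsGen M g →
      YZ ℝ (gr M) univ (bL Γ w a t (bet ν fun u v => 2 * Real.cos (Real.pi / M u v)) s)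
        (fun v x => x * g v) ν i ≤
      YB ℝ (gr M) univ (bL Γ w a t (bet ν fun u v => 2 * Real.cos (Real.pi / M u v)) s)
        (fun v x => x * g v) ν i := by
  classical
  obtain ⟨c, hc⟩ : ∃ c : V → V → ℝ, c = fun u v => 2 * Real.cos (Real.pi / M u v) := ⟨_, rfl⟩
  rw [← hc]
  have hcs : ∀ u v, c u v = c v u := by
    intro u v
    rw [hc]
    simp only
    rw [M.symmetric]
  have hwu := isFermi_up hw
  have hcol : ∀ u v, (gr M).Adj u v → Γ.col u ≠ Γ.col v := fun u v huv =>
    Γ.ne u v ((hG u v).1 huv)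
  obtain ⟨e, he⟩ : ∃ e : V → ((C → Bool) × D → ℝ) →ₗ[ℝ] ((C → Bool) × D → ℝ),
      e = fun v => opZ (eL Γ w a t v) := ⟨_, rfl⟩
  have heF : ∀ v, e v = rop (ic ℝ (eL Γ w a t v)) := by
    intro v
    rw [he]
    rfl
  have hhom : IsHom (gr M) e (fun v => opZ (hL Γ w a v)) := by
    rw [he]
    exact isHom_eL hw Γ (gr M) hcol t
  -- labels
  have hL2 : ∀ u v, (gr M).Adj u v → 2 ≤ M u v := by
    intro u v huv
    have h1 : M.M u v ≠ 1 := M.off_diagonal u v huv.1
    have h2 : M.M u v ≠ 0 := huv.2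
    exact (by omega : 2 ≤ M.M u v)
  have hLC : ∀ S b, Fold.Cl (gr M) S → S.card ≠ 2 * b → LC (fun u v => M u v) ν S b :=
    fun S b hS hb => lc_of_sph M hν S (hM S hS) b hb
  -- the operators
  have hpert : IsPertL (gr M) (fun u v => M u v) e
      (fun v => rop (gF (up w) (up a) (bet ν c) v)) (rop (cF (up w) (up a) ℝ)) := by
    refine ⟨hhom.e_sq, hhom.ee, ?_, ?_, ?_, ?_, ?_, ?_⟩
    · intro v x
      rw [← rop_mul, gF_sq hwu, bet_self, one_smul, rop_one]
    · intro u v huv x
      rw [← rop_mul, ← rop_mul, ← LinearMap.add_apply, ← rop_add, gF_anti hwu,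
        bet_add hν hcs huv.1, rop_smul, LinearMap.smul_apply, rop_one, hc]
    · intro u v x
      rw [heF]
      exact rop_anti (eL_gF Γ t hw _ u v) x
    · intro x
      rw [← rop_mul, cF_sq hwu, rop_neg, LinearMap.neg_apply, rop_one]
    · intro v x
      rw [heF]
      exact rop_anti (eL_cF Γ t hw v) x
    · intro v x
      exact rop_anti (gF_cF hwu _ v) x
  -- lifting
  have hlift : Lift (gr M) e := by
    intro σ v hv hcl x hx
    refine ⟨opZ (hL Γ w a v) x, fun u hu => ?_, ?_⟩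
    · have huv : (gr M).Adj u v := hcl u (mem_insert_of_mem hu) v (mem_insert_self _ _)
        fun h => hv (h ▸ hu)
      rw [hhom.eh' u v huv, hx u (mem_insert_of_mem hu), map_zero, neg_zero]
    · have h1 := hhom.eh v x
      rw [hx v (mem_insert_self _ _), map_zero, add_zero] at h1
      exact h1
  -- homology
  have hHV : ∀ (τ : Finset V) (j : ℕ), Fold.Cl (gr M) τ → 2 * j = 2 * i + τ.card →
      HVr ν (gr M) e ⊤ univ τ j := by
    intro τ j hτ hj
    by_cases hjτ : j < τ.card
    · intro c' hc' hcτ _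
      have h0 : c' = 0 := by
        funext σ
        by_contra h1
        have h2 := card_le_card (hcτ σ h1)
        have h3 := (hc'.supp σ h1).2.2
        omega
      rw [h0]
      exact ⟨0, ⟨fun _ => Submodule.mem_top, fun _ v _ => map_zero (e v),
        fun _ h => absurd rfl h⟩, fun _ h => absurd rfl h, map_zero _⟩
    · obtain ⟨j', hj'⟩ : ∃ j', j = j' + τ.card := ⟨j - τ.card, by omega⟩
      rw [hj', he]
      exact hvr_eL hw ν Γ (gr M) hG t τ hτ j' (hH τ (i - j') j' hτ (by omega) (by omega))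
  obtain ⟨κ, hκ⟩ : ∃ κ : ℝ, κ = ∑ v, ∑ d, ∑ d', |aL Γ w a t (bet ν c) 0 v d d'| := ⟨_, rfl⟩
  have hκ0 : 0 ≤ κ := by
    rw [hκ]
    exact Finset.sum_nonneg fun v _ => Finset.sum_nonneg fun d _ => Finset.sum_nonneg fun d' _ =>
      abs_nonneg _
  have hB : ∀ S, QF ν (gr M) e (fun u v => M u v) κ ∅ S i := fun S =>
    qf_baseG hν hκ0 S i (fun b => S.card ≠ 2 * b)
      (fun a b hS _ hab hQ => hHV S a hS (by
        rw [not_not] at hQ
        omega)) (fun b hS hQ => hLC S b hS hQ)
  obtain ⟨s₀, hs₀⟩ := tw_exactP hν hpert hlift hκ0 i hB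
  refine ⟨s₀, fun s hs P _ _ g hg f hfZ => ?_⟩
  obtain ⟨hf1, hf2⟩ := Submodule.mem_inf.1 hfZ
  have haS : ∀ v, aL Γ w a t (bet ν c) 0 v * aL Γ w a t (bet ν c) 0 v = 1 := fun v =>
    aL_sq Γ t hw _ 0 v (bet_self ν c v)
  -- the representation
  have hrep : IsRep (gr M) (fun u v => M u v) κ
      (fun v => jM (aL Γ w a t (bet ν c) 0 v) (g v)) := by
    refine ⟨fun v => ?_, fun u v huv => ?_, fun v => ?_⟩
    · rw [jM_mul, haS, hg.sq, jM_one]
    · have h2 : 2 ≤ M u v := hL2 u v huv
      have h3 := aL_pow Γ t hw (RingHom.id ℝ) (fun _ _ h => h) hν hcs 0 (hcol u v huv) h2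
        (by rw [hc]; rfl)
      rw [jM_mul, jM_pow, h3, hg u v, jM_neg, jM_one]
    · refine jM_rb _ _ fun d => ?_
      rw [hκ]
      refine le_trans ?_ (Finset.single_le_sum
        (f := fun v => ∑ d, ∑ d', |aL Γ w a t (bet ν c) 0 v d d'|)
        (fun v _ => Finset.sum_nonneg fun d _ => Finset.sum_nonneg fun d' _ => abs_nonneg _)
        (mem_univ v))
      exact Finset.single_le_sum (f := fun d => ∑ d', |aL Γ w a t (bet ν c) 0 v d d'|)
        (fun d _ => Finset.sum_nonneg fun d' _ => abs_nonneg _) (mem_univ d)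
  have hCC : cF (up w) (up a) ℝ * cF (up w) (up a) ℝ = -1 := cF_sq hwu
  have hXC : ∀ v, (s • ic ℝ (eL Γ w a t v) + gF (up w) (up a) (bet ν c) v) *
      cF (up w) (up a) ℝ =
      -(cF (up w) (up a) ℝ * (s • ic ℝ (eL Γ w a t v) + gF (up w) (up a) (bet ν c) v)) :=
    fun v => xL_cF Γ t hw (bet ν c) s v
  have hcond : ∀ (f' : Finset V → P → ((C → Bool) × D) × ((C → Bool) × D) → ℝ)
      (σ : Finset V) (v : V),
      (Xop e (fun v => rop (gF (up w) (up a) (bet ν c) v)) (rop (cF (up w) (up a) ℝ))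
        (fun v => jM (aL Γ w a t (bet ν c) 0 v) (g v)) s v (toF f' σ) = 0 ↔
      ∀ x : P, f' σ (x * g v) = -(bL Γ w a t (bet ν c) s v).mulVec (f' σ x)) := by
    intro f' σ v
    have h1 := xop_iff f' σ (ic ℝ (eL Γ w a t v)) (gF (up w) (up a) (bet ν c) v)
      (cF (up w) (up a) ℝ) (aL Γ w a t (bet ν c) 0 v) s (g v)
    have h2 := tw_iff f' σ (g := g v) (haS v) hCC (hXC v)
    rw [show bL Γ w a t (bet ν c) s v = Matrix.kroneckerMap (· * ·)
      ((s • ic ℝ (eL Γ w a t v) + gF (up w) (up a) (bet ν c) v) * cF (up w) (up a) ℝ)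
      (aL Γ w a t (bet ν c) 0 v) from rfl]
    rw [← h2, ← h1]
    constructor
    · intro h ω
      have h3 := congrFun h ω
      simp only [Xop, LinearMap.coe_mk, AddHom.coe_mk] at h3
      rw [heF] at h3
      exact h3
    · intro h
      funext ω
      simp only [Xop, LinearMap.coe_mk, AddHom.coe_mk]
      rw [heF]
      exact h ω
  have hbd : ∀ f' : Finset V → P → ((C → Bool) × D) × ((C → Bool) × D) → ℝ,
      Fold.bd ν (toF f') = toF (tdl ℝ ν f') := by
    intro f'
    funext τ ω d₁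
    simp only [Fold.bd, tdl, toF, LinearMap.coe_mk, AddHom.coe_mk, Finset.sum_apply,
      Pi.smul_apply]
    refine Finset.sum_congr rfl fun v _ => ?_
    simp [sgn, Pool.Agent.H4.Singer.sg]
  have htw : IsTwL (gr M) e (fun v => rop (gF (up w) (up a) (bet ν c) v))
      (rop (cF (up w) (up a) ℝ)) (fun v => jM (aL Γ w a t (bet ν c) 0 v) (g v)) s i
      (toF f) := by
    refine ⟨fun σ hσ => ?_, fun σ v hv => (hcond f σ v).2 (hf1.2 σ v hv)⟩
    by_contra hcon
    refine hσ ?_
    funext ω d₁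
    by_contra h0
    refine hcon (hf1.1 σ ω.2 ?_).2
    intro h1
    exact h0 (by simp [toF, h1])
  obtain ⟨y, hy1, hy2⟩ := hs₀ s hs (((C → Bool) × D) × P) _ hrep (toF f) htw (by
    rw [hbd, LinearMap.mem_ker.1 hf2]
    rfl)
  refine ⟨ofF y, ⟨fun σ ω h => ?_, fun σ v hv => (hcond (ofF y) σ v).1 ?_⟩, ?_⟩
  · refine ⟨subset_univ _, hy1.supp σ ?_⟩
    intro h1
    refine h ?_
    funext d
    simp [ofF, h1]
  · rw [to_of]
    exact hy1.eq σ v hv
  · have h1 : toF (tdl ℝ ν (ofF y)) = toF f := by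
      rw [← hbd, to_of, hy2]
    funext σ x d
    exact congrFun (congrFun (congrFun h1 σ) (d.2, x)) d.1

end Pool.Agent.H85.Lab
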