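import Pool.Agent.H85.Lab.Alg
import Pool.Agent.H4.HY.ColHV
import Pool.Agent.H4.FC.Defs

/-!
# Project LAB: reduction to the links

If the operators have homotopies, exactness of the complex of the link of `τ` implies exactness of the
complex of the simplices which contain `τ`.
-/

set_option autoImplicit false
set_option linter.unusedSectionVars false

open Finset

namespace Pool.Agent.H85.Lab

open Pool.Agent.H4.Singer Pool.Agent.H85.Fold Pool.Agent.H4.FC Pool.Agent.H4.HY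

open Classical in
/-- the link of a set of vertices -/
noncomputable def lkS {V C : Type} [DecidableEq V] [Fintype V] (Γ : ColGraph V C)
    (τ : Finset V) : Finset V := univ.filter fun v => v ∉ τ ∧ ∀ u ∈ τ, Γ.adj u v

theorem mem_lkS {V C : Type} [DecidableEq V] [Fintype V] {Γ : ColGraph V C} {τ : Finset V}
    {v : V} : v ∈ lkS Γ τ ↔ v ∉ τ ∧ ∀ u ∈ τ, Γ.adj u v := by
  classical
  unfold lkS
  rw [mem_filter]
  exact ⟨fun h => h.2, fun h => ⟨mem_univ _, h⟩⟩

section red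

variable {V S : Type} [DecidableEq V] [Fintype V] [AddCommGroup S] [Module ℝ S]

/-- operators of square zero with homotopies -/
structure IsHom (G : SimpleGraph V) (e h : V → S →ₗ[ℝ] S) : Prop where
  e_sq : ∀ v x, e v (e v x) = 0
  ee : ∀ u v, G.Adj u v → ∀ x, e u (e v x) = -e v (e u x)
  eh : ∀ v x, e v (h v x) + h v (e v x) = x
  eh' : ∀ u v, G.Adj u v → ∀ x, e u (h v x) = -h v (e u x)

/-- the projection to the intersection of the kernels -/
private theorem red_proj {G : SimpleGraph V} {e h : V → S →ₗ[ℝ] S} (he : IsHom G e h)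
    (τ : Finset V) : Cl G τ → ∃ P : S →ₗ[ℝ] S, (∀ x, (∀ u ∈ τ, e u x = 0) → P x = x) ∧
      (∀ x, ∀ u ∈ τ, e u (P x) = 0) ∧
      ∀ v, (∀ u ∈ τ, G.Adj u v) → ∀ x, e v (P x) = P (e v x) := by
  induction τ using Finset.induction_on with
  | empty =>
    intro _
    exact ⟨LinearMap.id, fun _ _ => rfl, fun _ _ hu => absurd hu (notMem_empty _), fun _ _ _ => rfl⟩
  | insert u τ hu ih =>
    intro hτ
    obtain ⟨P, h1, h2, h3⟩ := ih fun a ha b hb hab =>
      hτ a (mem_insert_of_mem ha) b (mem_insert_of_mem hb) hab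
    have hcomm : ∀ v, G.Adj u v → ∀ x, e v (e u (h u x)) = e u (h u (e v x)) := by
      intro v huv x
      rw [he.ee v u huv.symm, he.eh' v u huv.symm, map_neg, neg_neg]
    refine ⟨(e u).comp ((h u).comp P), fun x hx => ?_, fun x v hv => ?_, fun v hv x => ?_⟩
    · rw [LinearMap.comp_apply, LinearMap.comp_apply,
        h1 x fun v hv => hx v (mem_insert_of_mem hv)]
      have h4 := he.eh u x
      rw [hx u (mem_insert_self _ _), map_zero, add_zero] at h4
      exact h4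
    · rw [LinearMap.comp_apply, LinearMap.comp_apply]
      rcases mem_insert.1 hv with rfl | hv
      · exact he.e_sq _ _
      · have huv : G.Adj u v := hτ u (mem_insert_self _ _) v (mem_insert_of_mem hv)
          fun h => hu (h ▸ hv)
        rw [hcomm v huv, h2 x v hv, map_zero, map_zero]
    · rw [LinearMap.comp_apply, LinearMap.comp_apply, LinearMap.comp_apply,
        LinearMap.comp_apply, hcomm v (hv u (mem_insert_self _ _)),
        h3 v fun z hz => hv z (mem_insert_of_mem hz)]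

/-- the sign -/
noncomputable def sT (ν : V → ℕ) (τ ρ : Finset V) : ℝ := ∏ v ∈ ρ, sgn ν v τ

theorem sgn_mul_self (ν : V → ℕ) (v : V) (σ : Finset V) : sgn ν v σ * sgn ν v σ = 1 := by
  unfold sgn
  rw [← mul_pow]
  norm_num

theorem sT_sq (ν : V → ℕ) (τ ρ : Finset V) : sT ν τ ρ * sT ν τ ρ = 1 := by
  unfold sT
  rw [← prod_mul_distrib]
  exact prod_eq_one fun v _ => sgn_mul_self ν v τ

theorem sgn_union (ν : V → ℕ) (v : V) {τ ρ : Finset V} (h : Disjoint ρ τ) :
    sgn ν v (τ ∪ ρ) = sgn ν v τ * sgn ν v ρ := by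
  unfold sgn
  rw [filter_union, card_union_of_disjoint, pow_add]
  exact disjoint_filter_filter h.symm

/-- boundaries in the link -/
private theorem red_bd {ν : V → ℕ} {τ ρ : Finset V} (hρ : Disjoint ρ τ) {y : Finset V → S}
    (hy : ∀ σ, y σ ≠ 0 → Disjoint σ τ) :
    ∑ v ∈ (τ ∪ ρ)ᶜ, sgn ν v (τ ∪ ρ) • (sT ν τ (insert v ρ) • y (insert v ρ)) =
      sT ν τ ρ • bd ν y ρ := by
  have h0 : bd ν y ρ = ∑ v ∈ ρᶜ, sgn ν v ρ • y (insert v ρ) := rfl
  rw [h0, smul_sum]
  have hsub : (τ ∪ ρ)ᶜ ⊆ ρᶜ := by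
    intro v hv
    rw [mem_compl, mem_union, not_or] at hv
    exact mem_compl.2 hv.2
  rw [← sum_subset hsub (f := fun v => sT ν τ ρ • sgn ν v ρ • y (insert v ρ))]
  · refine sum_congr rfl fun v hv => ?_
    rw [mem_compl, mem_union, not_or] at hv
    have h2 : sT ν τ (insert v ρ) = sgn ν v τ * sT ν τ ρ := by
      unfold sT
      rw [prod_insert hv.2]
    rw [h2, sgn_union ν v hρ, smul_smul, smul_smul]
    congr 1
    have h3 := sgn_mul_self ν v τ
    linear_combination (sgn ν v ρ * sT ν τ ρ) * h3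
  · intro v hv hv'
    rw [mem_compl] at hv
    rw [mem_compl, not_not, mem_union] at hv'
    have hvτ : v ∈ τ := hv'.resolve_right hv
    have h0 : y (insert v ρ) = 0 := by
      by_contra h0
      exact Finset.disjoint_left.1 (hy _ h0) (mem_insert_self _ _) hvτ
    rw [h0, smul_zero, smul_zero]

/-- **Reduction to the link.** -/
theorem hvr_of_hv {ν : V → ℕ} {G : SimpleGraph V} {e h : V → S →ₗ[ℝ] S} (he : IsHom G e h)
    {τ U : Finset V} (hτ : Cl G τ) (hU : ∀ v, v ∈ U ↔ v ∉ τ ∧ ∀ u ∈ τ, G.Adj u v) (j : ℕ)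
    (H : HV ν G e ⊤ U j) : HVr ν G e ⊤ univ τ (j + τ.card) := by
  classical
  intro c hc hcτ hbd
  obtain ⟨P, hP1, hP2, hP3⟩ := red_proj he τ hτ
  obtain ⟨z, hzdef⟩ : ∃ z : Finset V → S, z = fun ρ => if Disjoint ρ τ then
    sT ν τ ρ • c (τ ∪ ρ) else 0 := ⟨_, rfl⟩
  have hzpos : ∀ ρ, Disjoint ρ τ → z ρ = sT ν τ ρ • c (τ ∪ ρ) := fun ρ hd => by
    rw [hzdef]
    exact if_pos hd
  have hzneg : ∀ ρ, ¬ Disjoint ρ τ → z ρ = 0 := fun ρ hd => by
    rw [hzdef]
    exact if_neg hd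
  have hzd : ∀ ρ, z ρ ≠ 0 → Disjoint ρ τ := fun ρ hne => by
    by_contra hcon
    exact hne (hzneg ρ hcon)
  have hcz : ∀ ρ, Disjoint ρ τ → c (τ ∪ ρ) = sT ν τ ρ • z ρ := fun ρ hd => by
    rw [hzpos ρ hd, smul_smul, sT_sq, one_smul]
  have hUd : ∀ {ρ : Finset V}, ρ ⊆ U → Disjoint ρ τ := fun hρ =>
    Finset.disjoint_left.2 fun v hv => ((hU v).1 (hρ hv)).1
  have hUcl : ∀ {ρ : Finset V}, ρ ⊆ U → Cl G ρ → Cl G (τ ∪ ρ) := by
    intro ρ h1 h2 u hu v hv huv
    rcases mem_union.1 hu with h3 | h3 <;> rcases mem_union.1 hv with h4 | h4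
    · exact hτ u h3 v h4 huv
    · exact ((hU v).1 (h1 h4)).2 u h3
    · exact (((hU u).1 (h1 h3)).2 v h4).symm
    · exact h2 u h3 v h4 huv
  have hzF : IsF G e ⊤ U j z := by
    refine ⟨fun _ => Submodule.mem_top, fun ρ v hv => ?_, fun ρ hne => ?_⟩
    · by_cases hd : Disjoint ρ τ
      · rw [hzpos ρ hd, map_smul, hc.ker _ v (mem_union_right τ hv), smul_zero]
      · rw [hzneg ρ hd, map_zero]
    · have hd := hzd ρ hne
      have h0 : c (τ ∪ ρ) ≠ 0 := by
        intro h0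
        exact hne (by rw [hzpos ρ hd, h0, smul_zero])
      obtain ⟨-, h2, h3⟩ := hc.supp _ h0
      refine ⟨fun v hv => ?_, fun u hu v hv huv => h2 u (mem_union_right _ hu) v
        (mem_union_right _ hv) huv, ?_⟩
      · rw [hU]
        have hvτ : v ∉ τ := Finset.disjoint_left.1 hd hv
        exact ⟨hvτ, fun u hu => h2 u (mem_union_left _ hu) v (mem_union_right _ hv)
          fun h => hvτ (h ▸ hu)⟩
      · rw [card_union_of_disjoint hd.symm] at h3
        omega
  have hzb : bd ν z = 0 := by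
    funext ρ
    by_cases hd : Disjoint ρ τ
    · have h1 := congrFun hbd (τ ∪ ρ)
      have h2 : bdr ν τ c (τ ∪ ρ) = ∑ v ∈ (τ ∪ ρ)ᶜ, sgn ν v (τ ∪ ρ) •
          (sT ν τ (insert v ρ) • z (insert v ρ)) := by
        show (if τ ⊆ τ ∪ ρ then ∑ v ∈ (τ ∪ ρ)ᶜ, sgn ν v (τ ∪ ρ) • c (insert v (τ ∪ ρ)) else 0) = _
        rw [if_pos subset_union_left]
        refine sum_congr rfl fun v hv => ?_
        rw [mem_compl, mem_union, not_or] at hv
        have hd' : Disjoint (insert v ρ) τ := by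
          rw [Finset.disjoint_insert_left]
          exact ⟨hv.1, hd⟩
        rw [← union_insert, hcz (insert v ρ) hd']
      rw [h2, red_bd hd hzd] at h1
      have h3 : sT ν τ ρ • (sT ν τ ρ • bd ν z ρ) = 0 := by
        rw [h1]
        exact smul_zero _
      rw [smul_smul, sT_sq, one_smul] at h3
      exact h3
    · show ∑ v ∈ ρᶜ, sgn ν v ρ • z (insert v ρ) = 0
      refine sum_eq_zero fun v _ => ?_
      rw [hzneg, smul_zero]
      intro hd'
      exact hd (Finset.disjoint_of_subset_left (subset_insert v ρ) hd')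
  obtain ⟨y, hy, hyb⟩ := H z hzF hzb
  have hPz : ∀ ρ, P (z ρ) = z ρ := by
    intro ρ
    refine hP1 _ fun u hu => ?_
    by_cases hd : Disjoint ρ τ
    · rw [hzpos ρ hd, map_smul, hc.ker _ u (mem_union_left ρ hu), smul_zero]
    · rw [hzneg ρ hd, map_zero]
  obtain ⟨y', hy'def⟩ : ∃ y' : Finset V → S, y' = fun ρ => P (y ρ) := ⟨_, rfl⟩
  have hy's : ∀ ρ, y' ρ ≠ 0 → ρ ⊆ U ∧ Cl G ρ ∧ ρ.card = j + 1 := by
    intro ρ hne
    refine hy.supp ρ fun h0 => hne ?_
    rw [hy'def]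
    show P (y ρ) = 0
    rw [h0, map_zero]
  have hy'd : ∀ ρ, y' ρ ≠ 0 → Disjoint ρ τ := fun ρ hne => hUd (hy's ρ hne).1
  have hy'b : bd ν y' = z := by
    funext ρ
    have h1 : bd ν y' ρ = P (bd ν y ρ) := by
      show ∑ v ∈ ρᶜ, sgn ν v ρ • y' (insert v ρ) = P (∑ v ∈ ρᶜ, sgn ν v ρ • y (insert v ρ))
      rw [map_sum]
      refine sum_congr rfl fun v _ => ?_
      rw [map_smul, hy'def]
    rw [h1, hyb, hPz]
  have hy'k : ∀ ρ, y' ρ ≠ 0 → ∀ v ∈ τ ∪ ρ, e v (y' ρ) = 0 := by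
    intro ρ hne v hv
    have hρU := (hy's ρ hne).1
    rw [hy'def]
    show e v (P (y ρ)) = 0
    rcases mem_union.1 hv with hv | hv
    · exact hP2 _ v hv
    · rw [hP3 v ((hU v).1 (hρU hv)).2, hy.ker ρ v hv, map_zero]
  refine ⟨fun σ => if τ ⊆ σ then sT ν τ (σ \ τ) • y' (σ \ τ) else 0,
    ⟨fun σ => Submodule.mem_top, ?_, ?_⟩, ?_, ?_⟩
  · intro σ v hv
    by_cases hστ : τ ⊆ σ
    · simp only [if_pos hστ]
      rw [map_smul]
      by_cases h0 : y' (σ \ τ) = 0
      · rw [h0, map_zero, smul_zero]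
      · rw [hy'k _ h0 v (by rw [union_sdiff_of_subset hστ]; exact hv), smul_zero]
    · simp only [if_neg hστ]
      exact map_zero _
  · intro σ hne
    have hστ : τ ⊆ σ := by
      by_contra hcon
      exact hne (if_neg hcon)
    simp only [if_pos hστ] at hne
    obtain ⟨h1, h2, h3⟩ := hy's _ (right_ne_zero_of_smul hne)
    have e0 : τ ∪ (σ \ τ) = σ := union_sdiff_of_subset hστ
    have h4 := hUcl h1 h2
    rw [e0] at h4
    refine ⟨subset_univ _, h4, ?_⟩
    rw [← e0, card_union_of_disjoint disjoint_sdiff, h3]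
    omega
  · intro σ hne
    by_contra hcon
    exact hne (if_neg hcon)
  · funext ρ₀
    by_cases hτρ : τ ⊆ ρ₀
    · obtain ⟨ρ, hρ⟩ : ∃ ρ, ρ = ρ₀ \ τ := ⟨_, rfl⟩
      have hd : Disjoint ρ τ := by
        rw [hρ]
        exact disjoint_sdiff.symm
      have e0 : ρ₀ = τ ∪ ρ := by
        rw [hρ]
        exact (union_sdiff_of_subset hτρ).symm
      rw [e0, hcz ρ hd, ← hy'b, ← red_bd hd hy'd]
      show (if τ ⊆ τ ∪ ρ then ∑ v ∈ (τ ∪ ρ)ᶜ, sgn ν v (τ ∪ ρ) •
        (if τ ⊆ insert v (τ ∪ ρ) then sT ν τ (insert v (τ ∪ ρ) \ τ) •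
          y' (insert v (τ ∪ ρ) \ τ) else 0) else 0) = _
      rw [if_pos subset_union_left]
      refine sum_congr rfl fun v hv => ?_
      rw [mem_compl, mem_union, not_or] at hv
      have e2 : insert v (τ ∪ ρ) \ τ = insert v ρ := by
        rw [insert_sdiff_of_notMem _ hv.1, union_sdiff_left, sdiff_eq_self_of_disjoint hd]
      rw [e2, if_pos (subset_union_left.trans (subset_insert v (τ ∪ ρ)))]
    · show (if τ ⊆ ρ₀ then _ else 0 : S) = c ρ₀
      rw [if_neg hτρ]
      by_contra h0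
      exact hτρ (hcτ _ fun h => h0 h.symm)

end red

/-! ### the operators -/

section ops

variable {V C D : Type} [DecidableEq V] [Fintype V] [DecidableEq C] [Fintype C] [Fintype D]
  [DecidableEq D] {w a : LI V C → Matrix D D ℤ}

/-- the real operator of an integer matrix -/
noncomputable def opZ {J : Type} [Fintype J] [DecidableEq J] (A : Matrix J J ℤ) :
    (J → ℝ) →ₗ[ℝ] (J → ℝ) := Matrix.toLin' (ic ℝ A)

theorem opZ_mul {J : Type} [Fintype J] [DecidableEq J] (A B : Matrix J J ℤ) (x : J → ℝ) :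
    opZ (A * B) x = opZ A (opZ B x) := by
  unfold opZ
  rw [show ic ℝ (A * B) = ic ℝ A * ic ℝ B from map_mul (Int.castRingHom ℝ).mapMatrix A B,
    Matrix.toLin'_mul]
  rfl

theorem opZ_one {J : Type} [Fintype J] [DecidableEq J] (x : J → ℝ) :
    opZ (1 : Matrix J J ℤ) x = x := by
  unfold opZ
  rw [show ic ℝ (1 : Matrix J J ℤ) = 1 from map_one (Int.castRingHom ℝ).mapMatrix,
    Matrix.toLin'_one]
  rfl

theorem opZ_add {J : Type} [Fintype J] [DecidableEq J] (A B : Matrix J J ℤ) (x : J → ℝ) :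
    opZ (A + B) x = opZ A x + opZ B x := by
  unfold opZ
  rw [show ic ℝ (A + B) = ic ℝ A + ic ℝ B from map_add (Int.castRingHom ℝ).mapMatrix A B,
    map_add]
  rfl

theorem opZ_neg {J : Type} [Fintype J] [DecidableEq J] (A : Matrix J J ℤ) (x : J → ℝ) :
    opZ (-A) x = -opZ A x := by
  unfold opZ
  rw [show ic ℝ (-A) = -ic ℝ A from map_neg (Int.castRingHom ℝ).mapMatrix A, map_neg]
  rfl

theorem opZ_zero {J : Type} [Fintype J] [DecidableEq J] (x : J → ℝ) :
    opZ (0 : Matrix J J ℤ) x = 0 := by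
  unfold opZ
  rw [show ic ℝ (0 : Matrix J J ℤ) = 0 from map_zero (Int.castRingHom ℝ).mapMatrix, map_zero]
  rfl

theorem opZ_eq {J : Type} [Fintype J] [DecidableEq J] (A : Matrix J J ℤ) :
    opZ A = Pool.Agent.H19.Cub.opM A := rfl

theorem isHom_eL (hw : IsFermi w a) (Γ : ColGraph V C) (G : SimpleGraph V)
    (hG : ∀ u v, G.Adj u v → Γ.col u ≠ Γ.col v) (t : V → ℤ) :
    IsHom G (fun v => opZ (eL Γ w a t v)) (fun v => opZ (hL Γ w a v)) where
  e_sq v x := by rw [← opZ_mul, eL_sq hw, opZ_zero]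
  ee u v huv x := by rw [← opZ_mul, eL_anti hw Γ t (hG u v huv), opZ_neg, opZ_mul]
  eh v x := by rw [← opZ_mul, ← opZ_mul, ← opZ_add, eL_hL hw, opZ_one]
  eh' u v huv x := by rw [← opZ_mul, eL_hL_anti hw Γ t (hG u v huv), opZ_neg, opZ_mul]

/-- **Exactness of the complexes of the simplices which contain `τ`.** -/
theorem hvr_eL (hw : IsFermi w a) (ν : V → ℕ) (Γ : ColGraph V C) (G : SimpleGraph V)
    (hG : ∀ u v, G.Adj u v ↔ Γ.adj u v) (t : V → ℤ) (τ : Finset V) (hτ : Cl G τ) (j : ℕ)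
    (H : HV ν G (fun v => opZ (eL Γ w a t v)) ⊤ (lkS Γ τ) j) :
    HVr ν G (fun v => opZ (eL Γ w a t v)) ⊤ univ τ (j + τ.card) :=
  hvr_of_hv (isHom_eL hw Γ G (fun u v huv => Γ.ne u v ((hG u v).1 huv)) t) hτ
    (fun v => by
      rw [mem_lkS]
      exact and_congr_right fun _ => forall_congr' fun u => imp_congr_right fun _ =>
        (hG u v).symm) j H

end ops

end Pool.Agent.H85.Lab
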