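import Pool.Agent.H85.Lab.MainL
import Pool.Agent.H85.VK.Final

/-!
# Project LAB: the `L²` van Kampen theorem for Coxeter groups of FC type
-/

set_option autoImplicit false
set_option linter.unusedSectionVars false

open Finset

namespace Pool.Agent.H85.Lab

open Pool.Agent.H4.Singer Pool.Agent.H4.Singer2 Pool.Agent.H85.VK

variable {V : Type} [DecidableEq V] [Fintype V] {k : ℕ}

private theorem vk_card (Γ : ColGraph V (Fin (k + 1))) {σ : Finset V} (hσ : Γ.Cl σ) :
    σ.card ≤ k + 1 := by
  have h1 : Set.InjOn Γ.col (σ : Set V) := by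
    intro u hu v hv huv
    by_contra hne
    exact Γ.ne u v (hσ u hu v hv hne) huv
  have h2 := card_le_card_of_injOn Γ.col (fun _ _ => mem_univ _) h1
  rwa [card_univ, Fintype.card_fin] at h2

/-- **Local exactness.** -/
theorem van_vk (G : SimpleGraph V) (C : G.Coloring (Fin (k + 1))) (h : VanKampenZero G k)
    (i : ℕ) (hi : k < i) : Van (colG G C) (fun v => (xv v : RF V)) univ i := by
  have h1 := van_join_sf (colG G C) (fun v => (xv v : RF V)) ∅ univ (by simp) 1 le_rfl
    (fun j hj => van_empty (colG G C) _ j hj) (k + 1) (by omega) (fun σ _ hσ => vk_card _ hσ)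
    (fun β hβ v _ => by
      obtain ⟨κ, hκ, rfl⟩ := exists_rbw (Γ := colG G C) (φ := β) (by rwa [Fintype.card_fin])
      exact ⟨κ ((colG G C).col v), mem_image_of_mem κ (mem_univ _),
        mem_rbw.1 hκ _⟩)
    (stressFree_vk G C h) i (by omega)
  rwa [empty_union] at h1

/-- **The `L²` van Kampen theorem for Coxeter groups of FC type.** -/
theorem fc_vk (M : CoxeterMatrix V) (hM : Pool.Agent.H4.FD.IsFC M)
    (hG : (Pool.Agent.H4.FC.gr M).Colorable (k + 1)) (h : VanKampenZero (Pool.Agent.H4.FC.gr M) k)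
    (i : ℕ) (hi : k < i) : Pool.Agent.H4.FC.L2HomologyZero M i := by
  obtain ⟨C⟩ := hG
  refine lab_of_van M hM (colG _ C) (fun _ _ => Iff.rfl) i fun τ b j hτ hb hj => ?_
  refine ⟨RF V, inferInstance, inferInstance, fun v => (xv v : RF V), ?_⟩
  rcases Nat.eq_zero_or_pos b with rfl | hb0
  · have h1 : τ = ∅ := by
      rw [← card_eq_zero, hb]
    have h2 : lkS (colG (Pool.Agent.H4.FC.gr M) C) τ = univ := by
      ext v
      rw [mem_lkS, h1]
      simp
    rw [h2]
    exact van_vk _ C h j (by omega)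
  · have hcard : ∀ ρ ⊆ lkS (colG (Pool.Agent.H4.FC.gr M) C) τ,
        (colG (Pool.Agent.H4.FC.gr M) C).Cl ρ → ρ.card + τ.card ≤ k + 1 := by
      intro ρ hρ hcl
      have hd : Disjoint ρ τ := Finset.disjoint_left.2 fun v hv => (mem_lkS.1 (hρ hv)).1
      rw [← card_union_of_disjoint hd]
      refine vk_card (colG _ C) ?_
      intro u hu v hv huv
      rcases mem_union.1 hu with h3 | h3 <;> rcases mem_union.1 hv with h4 | h4
      · exact hcl u h3 v h4 huv
      · exact (colG _ C).symm v u ((mem_lkS.1 (hρ h3)).2 v h4)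
      · exact (mem_lkS.1 (hρ h4)).2 u h3
      · exact hτ u h3 v h4 huv
    intro z hz _
    have h0 : z = 0 := by
      funext ρ a
      by_contra hne
      obtain ⟨h3, h4, h5⟩ := hz.supp ρ a hne
      have h6 := hcard ρ h3 h4
      omega
    rw [h0]
    refine ⟨0, ⟨fun _ _ h => absurd rfl h, fun _ _ _ _ _ => rfl⟩, ?_⟩
    funext ρ a
    unfold Pool.Agent.H4.Singer.bd
    simp

end Pool.Agent.H85.Lab
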